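import Pool.Agent.Helper20_GI.Odd

/-!
# Congruences for odd Giuga numbers and their coprime factorisations
-/

set_option autoImplicit false

namespace Pool.Agent.Results.MP_b905d3_nt.OddGiugaCongruences

open Finset Pool.Agent.Helper20_GI

/-- a Giuga number: composite, and every prime `p ∣ n` divides `n / p - 1` -/
def Giuga (n : ℕ) : Prop := 1 < n ∧ ¬ n.Prime ∧ ∀ p : ℕ, p.Prime → p ∣ n → p ∣ n / p - 1

/-- What is shown of the factorisation `n = ∏ b ∈ B, b`: `∑ 1 / b = a + 1 / n` for an integer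
`a ≥ 1` with `∑ b ≡ n + a` modulo every divisor of `24` which is coprime to `n` and with
`|B| ≡ a + 1` modulo `4`; and `|B| ≥ 10`, and if `|B| ≤ 55` then `a = 1` and `|B| ≡ 2` modulo `4`. -/
def Congruences (n : ℕ) (B : Finset ℕ) : Prop :=
  ∃ a, 1 ≤ a ∧ ∑ b ∈ B, n / b = a * n + 1 ∧
    (∀ m, m ∣ 24 → Nat.Coprime n m → ∑ b ∈ B, b ≡ n + a [MOD m]) ∧
    B.card % 4 = (a + 1) % 4 ∧ 10 ≤ B.card ∧ (B.card ≤ 55 → a = 1 ∧ B.card % 4 = 2)

theorem Giuga.block {n : ℕ} (h : Giuga n) : Block n := ⟨h.1, h.2.2⟩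

theorem block_of {b : ℕ} (h : b.Prime ∨ Giuga b) : Block b := by
  rcases h with h | h
  · refine ⟨h.one_lt, fun p hp hpb => ?_⟩
    rw [(Nat.prime_dvd_prime_iff_eq hp h).1 hpb, Nat.div_self h.pos]
    exact dvd_zero _
  · exact h.block

/-- Let `n` be an odd Giuga number.  The congruences hold for the set of its prime factors, and for
every set `B` of at least two pairwise coprime primes or Giuga numbers with product `n`. -/
theorem result :
    (∀ n : ℕ, n % 2 = 1 → Giuga n → Congruences n n.primeFactors) ∧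
    (∀ (n : ℕ) (B : Finset ℕ), n % 2 = 1 → Giuga n → 2 ≤ B.card → (∀ b ∈ B, b.Prime ∨ Giuga b) →
      (∀ b ∈ B, ∀ c ∈ B, b ≠ c → Nat.Coprime b c) → n = ∏ b ∈ B, b → Congruences n B) := by
  have h2 : ∀ (n : ℕ) (B : Finset ℕ), n % 2 = 1 → Giuga n → 2 ≤ B.card →
      (∀ b ∈ B, b.Prime ∨ Giuga b) →
      (∀ b ∈ B, ∀ c ∈ B, b ≠ c → Nat.Coprime b c) → n = ∏ b ∈ B, b → Congruences n B :=
    fun n B ho hG h2 hB hc hn => odd_main ho B h2 (fun b hb => block_of (hB b hb)) hc hn hG.block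
  refine ⟨fun n ho hG => ?_, h2⟩
  have hn := Nat.prod_primeFactors_of_squarefree hG.block.sqf
  refine h2 n n.primeFactors ho hG ?_ (fun b hb => Or.inl (Nat.prime_of_mem_primeFactors hb)) ?_
    hn.symm
  · have h0 : n.primeFactors.Nonempty := Nat.nonempty_primeFactors.2 hG.1
    have h3 := card_pos.2 h0
    by_contra hcon
    obtain ⟨p, hp⟩ := card_eq_one.1 (by omega : n.primeFactors.card = 1)
    rw [hp, prod_singleton] at hn
    apply hG.2.1
    rw [← hn]
    exact Nat.prime_of_mem_primeFactors (n := n) (by rw [hp]; exact mem_singleton_self p)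
  · exact fun b hb c hc hbc => (Nat.coprime_primes (Nat.prime_of_mem_primeFactors hb)
      (Nat.prime_of_mem_primeFactors hc)).2 hbc

end Pool.Agent.Results.MP_b905d3_nt.OddGiugaCongruences
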